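import Pool.Agent.Helper54_BED.Stmt

/-!
# Module COV of squad BED
-/

set_option autoImplicit false

open MeasureTheory ProbabilityTheory

open scoped ENNReal NNReal BigOperators

noncomputable section

namespace Pool.Agent.BED.H61

open Matrix Pool.Agent.Anderson Pool.Agent.Loc Pool.Agent.BED

theorem AM_tr {d M : ℕ} [NeZero M] (z : ℝ) (V : Tor d M → ℝ) (x : Tor d M) :
    AM z (tr x V) = (AM z V).submatrix (Equiv.addLeft x) (Equiv.addLeft x) := by
  ext y w
  simp only [AM, tr, adj, Matrix.sub_apply, Matrix.submatrix_apply, Equiv.coe_addLeft,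
    Matrix.of_apply, Matrix.diagonal_apply, add_right_inj]
  congr 1
  refine Finset.sum_congr rfl fun i _ => ?_
  have h1 : (x + w = x + y + ev i) ↔ w = y + ev i := by rw [add_assoc, add_right_inj]
  have h2 : (x + w = x + y - ev i) ↔ w = y - ev i := by
    rw [add_sub_assoc, add_right_inj]
  simp only [h1, h2]

/-- COV -/
theorem cov : CovStmt := by
  intro d M _ z V x
  have hG : GM z (tr x V) = (GM z V).submatrix (Equiv.addLeft x) (Equiv.addLeft x) := by
    unfold GM
    rw [AM_tr, Matrix.inv_submatrix_equiv]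
  have hGe : ∀ y w, GM z (tr x V) y w = GM z V (x + y) (x + w) := by
    intro y w; rw [hG]; rfl
  have hP : (AM z (tr x V)).PosDef ↔ (AM z V).PosDef := by
    rw [AM_tr]
    constructor
    · intro h
      have h2 := h.submatrix (e := (Equiv.addLeft x).symm) (Equiv.injective _)
      have e2 : ((AM z V).submatrix (Equiv.addLeft x) (Equiv.addLeft x)).submatrix
          (Equiv.addLeft x).symm (Equiv.addLeft x).symm = AM z V := by
        rw [Matrix.submatrix_submatrix, Equiv.self_comp_symm, Matrix.submatrix_id_id]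
      rwa [e2] at h2
    · intro h
      exact h.submatrix (Equiv.injective _)
  have hD : ∀ y, DD z (tr x V) y = DD z V (x + y) := by
    intro y
    unfold DD
    simp only [hGe]
    exact Equiv.sum_comp (Equiv.addLeft x) (fun w => GM z V (x + y) w)
  have hs : ∀ y, ∑ w, (GM z (tr x V) y w) ^ 2 = ∑ w, (GM z V (x + y) w) ^ 2 := by
    intro y
    simp only [hGe]
    exact Equiv.sum_comp (Equiv.addLeft x) (fun w => (GM z V (x + y) w) ^ 2)
  have all : ∀ p : Tor d M → Prop, (∀ y, p (x + y)) ↔ ∀ y, p y :=
    fun p => (Equiv.addLeft x).forall_congr_right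
  refine ⟨fun y w => by rw [AM_tr]; rfl, hP, hGe, hD, ?_, ?_⟩
  · intro m B C1
    have g1 : (∀ y, DD z (tr x V) y ≤ m) ↔ ∀ y, DD z V y ≤ m := by
      rw [← all (fun y => DD z V y ≤ m)]
      exact forall_congr' fun y => by rw [hD]
    have g2 : (∀ y, ∑ w, (GM z (tr x V) y w) ^ 2 ≤ B) ↔ ∀ y, ∑ w, (GM z V y w) ^ 2 ≤ B := by
      rw [← all (fun y => ∑ w, (GM z V y w) ^ 2 ≤ B)]
      exact forall_congr' fun y => by rw [hs]
    have g3 : (∀ y, GM z (tr x V) y y ≤ C1) ↔ ∀ y, GM z V y y ≤ C1 := by
      rw [← all (fun y => GM z V y y ≤ C1)]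
      exact forall_congr' fun y => by rw [hGe]
    exact and_congr hP (and_congr g1 (and_congr g2 g3))
  · intro v
    have h := measurePreserving_piCongrLeft (fun _ : Tor d M => gaussianReal 0 v)
      (Equiv.addLeft x).symm
    have e : (tr x : (Tor d M → ℝ) → Tor d M → ℝ)
        = MeasurableEquiv.piCongrLeft (fun _ : Tor d M => ℝ) (Equiv.addLeft x).symm := by
      funext W y
      have := Equiv.piCongrLeft_apply_apply (fun _ : Tor d M => ℝ) (Equiv.addLeft x).symm W (x + y)
      simp only [Equiv.addLeft_symm, Equiv.coe_addLeft, neg_add_cancel_left] at this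
      simp only [tr]
      rw [MeasurableEquiv.coe_piCongrLeft, Equiv.addLeft_symm]
      exact this.symm
    rw [e]
    exact h

end Pool.Agent.BED.H61
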