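import Pool.Agent.Helper54_BED.Stmt

/-!
# Modules MCS and COV of squad BED
-/

set_option autoImplicit false

open MeasureTheory ProbabilityTheory

open scoped ENNReal NNReal BigOperators

noncomputable section

namespace Pool.Agent.BED.H61

open Matrix Pool.Agent.Anderson Pool.Agent.Loc Pool.Agent.BED

variable {d M : ℕ} [NeZero M]

/-- the part of a vector away from the origin -/
def off (V : Tor d M → ℝ) : EuclideanSpace ℝ (Tor d M) :=
  WithLp.toLp 2 (fun y => if y = 0 then 0 else V y)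

omit [NeZero M] in
theorem off_sub (V W : Tor d M → ℝ) : off (V - W) = off V - off W := by
  ext y
  by_cases h : y = 0
  · simp [off, h]
  · simp [off, h]

theorem norm_off (V : Tor d M → ℝ) :
    ‖off V‖ = Real.sqrt (∑ y ∈ Finset.univ.filter (fun y => y ≠ 0), V y ^ 2) := by
  rw [EuclideanSpace.norm_eq]
  congr 1
  rw [Finset.sum_filter]
  refine Finset.sum_congr rfl fun y _ => ?_
  by_cases h : y = 0
  · simp [off, h]
  · simp [off, h]

/-- the distance -/
def rho (B C1 : ℝ) (V W : Tor d M → ℝ) : ℝ := C1 * |V 0 - W 0| + Real.sqrt B * ‖off V - off W‖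

theorem rho_nonneg {B C1 : ℝ} (h1 : 0 ≤ C1) (V W : Tor d M → ℝ) : 0 ≤ rho B C1 V W :=
  add_nonneg (mul_nonneg h1 (abs_nonneg _)) (mul_nonneg (Real.sqrt_nonneg _) (norm_nonneg _))

theorem rho_self (B C1 : ℝ) (V : Tor d M → ℝ) : rho B C1 V V = 0 := by simp [rho]

theorem rho_symm (B C1 : ℝ) (V W : Tor d M → ℝ) : rho B C1 V W = rho B C1 W V := by
  unfold rho
  rw [abs_sub_comm, norm_sub_rev]

theorem rho_tri {B C1 : ℝ} (h1 : 0 ≤ C1) (U V W : Tor d M → ℝ) :
    rho B C1 U W ≤ rho B C1 U V + rho B C1 V W := by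
  unfold rho
  have a1 : |U 0 - W 0| ≤ |U 0 - V 0| + |V 0 - W 0| := abs_sub_le _ _ _
  have a2 : ‖off U - off W‖ ≤ ‖off U - off V‖ + ‖off V - off W‖ := norm_sub_le_norm_sub_add_norm_sub _ _ _
  have a3 := mul_le_mul_of_nonneg_left a1 h1
  have a4 := mul_le_mul_of_nonneg_left a2 (Real.sqrt_nonneg B)
  linarith

theorem rho_le (B : ℝ) {C1 : ℝ} (h1 : 0 ≤ C1) (V W : Tor d M → ℝ) :
    rho B C1 V W ≤ (C1 + Real.sqrt B) * Real.sqrt (∑ x, (V x - W x) ^ 2) := by
  unfold rho
  have a1 : |V 0 - W 0| ≤ Real.sqrt (∑ x, (V x - W x) ^ 2) := by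
    refine Real.abs_le_sqrt ?_
    exact Finset.single_le_sum (f := fun x => (V x - W x) ^ 2) (fun x _ => sq_nonneg _)
      (Finset.mem_univ 0)
  have a2 : ‖off V - off W‖ ≤ Real.sqrt (∑ x, (V x - W x) ^ 2) := by
    rw [← off_sub, norm_off]
    refine Real.sqrt_le_sqrt ?_
    exact Finset.sum_le_sum_of_subset_of_nonneg (Finset.filter_subset _ _)
      (fun x _ _ => sq_nonneg _)
  have a3 := mul_le_mul_of_nonneg_left a1 h1
  have a4 := mul_le_mul_of_nonneg_left a2 (Real.sqrt_nonneg B)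
  linarith

/-- the difference of the landscape functions -/
theorem DD_sub {z : ℝ} {U V : Tor d M → ℝ} (hU : (AM z U).PosDef) (hV : (AM z V).PosDef)
    (x : Tor d M) : DD z V x - DD z U x = ∑ y, GM z V x y * ((V y - U y) * DD z U y) := by
  have h1 : AM z V *ᵥ (DD z V - DD z U) = fun y => (V y - U y) * DD z U y := by
    funext y
    rw [Matrix.mulVec_sub, Pi.sub_apply, AM_DD hV]
    have h2 := congrFun (AM_DD hU) y
    rw [AM_mulVec] at h2 ⊢
    rw [Pi.one_apply] at h2 ⊢
    rw [← h2]; ring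
  have h3 := congrFun (inv_mulVec hV (DD z V - DD z U)) x
  rw [h1] at h3
  rw [← Pi.sub_apply, ← h3]
  rfl

theorem key {z m B C1 : ℝ} (hm : 0 < m) {U V : Tor d M → ℝ}
    (hU : U ∈ goodSet z m B C1) (hV : V ∈ goodSet z m B C1) :
    DD z V 0 - DD z U 0 ≤ m * rho B C1 V U := by
  obtain ⟨pU, dU, -, -⟩ := hU
  obtain ⟨pV, -, sV, gV⟩ := hV
  rw [DD_sub pU pV]
  have hD0 : ∀ y, 0 ≤ DD z U y := fun y => (DD_pos pU y).le
  have h1 : ∀ y, GM z V 0 y * ((V y - U y) * DD z U y) ≤ m * (GM z V 0 y * |V y - U y|) := by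
    intro y
    have g0 := GM_nonneg pV 0 y
    calc GM z V 0 y * ((V y - U y) * DD z U y) ≤ GM z V 0 y * (|V y - U y| * DD z U y) :=
          mul_le_mul_of_nonneg_left (mul_le_mul_of_nonneg_right (le_abs_self _) (hD0 y)) g0
      _ ≤ GM z V 0 y * (|V y - U y| * m) :=
          mul_le_mul_of_nonneg_left (mul_le_mul_of_nonneg_left (dU y) (abs_nonneg _)) g0
      _ = _ := by ring
  refine (Finset.sum_le_sum fun y _ => h1 y).trans ?_
  rw [← Finset.mul_sum]
  refine mul_le_mul_of_nonneg_left ?_ hm.le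
  unfold rho
  rw [← Finset.add_sum_erase _ _ (Finset.mem_univ (0 : Tor d M))]
  refine add_le_add (mul_le_mul_of_nonneg_right (gV 0) (abs_nonneg _)) ?_
  have e : Finset.univ.erase (0 : Tor d M) = Finset.univ.filter (fun y => y ≠ 0) := by
    ext y; simp
  rw [e]
  refine (Real.sum_mul_le_sqrt_mul_sqrt _ _ _).trans ?_
  refine mul_le_mul ?_ ?_ (Real.sqrt_nonneg _) (Real.sqrt_nonneg _)
  · refine Real.sqrt_le_sqrt (le_trans ?_ (sV 0))
    exact Finset.sum_le_sum_of_subset_of_nonneg (Finset.filter_subset _ _)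
      (fun x _ _ => sq_nonneg _)
  · rw [← off_sub, norm_off]
    refine le_of_eq ?_
    congr 1
    refine Finset.sum_congr rfl fun y _ => ?_
    rw [sq_abs]; rfl

/-- MCS -/
theorem mcs : McsStmt := by
  intro d M _ z m B C1 hm hB hC1
  by_cases hne : (goodSet (d := d) (M := M) z m B C1).Nonempty
  swap
  · refine ⟨fun _ => 0, fun _ => le_rfl, fun _ => hm.le, ?_, ?_, ?_⟩
    · intro V W
      simp only [sub_self, abs_zero]
      positivity
    · intro V W _
      simp only [sub_self, abs_zero]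
      positivity
    · intro V hV
      exact absurd ⟨V, hV⟩ hne
  obtain ⟨U0, hU0⟩ := hne
  set G := goodSet (d := d) (M := M) z m B C1 with hG
  have : Nonempty G := ⟨⟨U0, hU0⟩⟩
  set F0 : (Tor d M → ℝ) → ℝ := fun V => ⨅ U : G, (DD z U.1 0 + m * rho B C1 V U.1) with hF0
  have hbd : ∀ V, BddBelow (Set.range fun U : G => DD z U.1 0 + m * rho B C1 V U.1) := by
    intro V
    refine ⟨0, ?_⟩
    rintro _ ⟨U, rfl⟩
    exact add_nonneg (DD_pos U.2.1 0).le (mul_nonneg hm.le (rho_nonneg hC1 _ _))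
  have hlip : ∀ V W, F0 V ≤ F0 W + m * rho B C1 V W := by
    intro V W
    rw [← sub_le_iff_le_add]
    refine le_ciInf fun U => ?_
    rw [sub_le_iff_le_add]
    refine (ciInf_le (hbd V) U).trans ?_
    have := mul_le_mul_of_nonneg_left (rho_tri (B := B) hC1 V W U.1) hm.le
    linarith
  have hval : ∀ V ∈ G, F0 V = DD z V 0 := by
    intro V hV
    refine le_antisymm ?_ ?_
    · refine (ciInf_le (hbd V) ⟨V, hV⟩).trans ?_
      simp [rho_self]
    · refine le_ciInf fun U => ?_
      have := key hm U.2 hV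
      linarith
  have hF : ∀ V W, |max 0 (min m (F0 V)) - max 0 (min m (F0 W))| ≤ m * rho B C1 V W := by
    intro V W
    have h1 := hlip V W
    have h2 := hlip W V
    rw [rho_symm B C1 W V] at h2
    calc |max 0 (min m (F0 V)) - max 0 (min m (F0 W))|
        ≤ |min m (F0 V) - min m (F0 W)| := by
          have := abs_max_sub_max_le_max 0 (min m (F0 V)) 0 (min m (F0 W))
          simpa using this
      _ ≤ |F0 V - F0 W| := by
          have := abs_min_sub_min_le_max m (F0 V) m (F0 W)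
          simpa using this
      _ ≤ _ := by rw [abs_le]; constructor <;> linarith
  refine ⟨fun V => max 0 (min m (F0 V)), fun V => le_max_left _ _, fun V => ?_, ?_, ?_, ?_⟩
  · exact max_le hm.le (min_le_left _ _)
  · intro V W
    refine (hF V W).trans ?_
    rw [mul_assoc]
    exact mul_le_mul_of_nonneg_left (rho_le B hC1 V W) hm.le
  · intro V W h
    refine (hF V W).trans (le_of_eq ?_)
    have h1 : off V - off W = 0 := by
      rw [← off_sub]
      ext y
      by_cases hy : y = 0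
      · simp [off, hy]
      · simp [off, hy, h y hy]
    unfold rho
    rw [h1]
    simp [mul_assoc]
  · intro V hV
    simp only
    rw [hval V hV]
    have h1 : DD z V 0 ≤ m := hV.2.1 0
    rw [min_eq_right h1, max_eq_right (DD_pos hV.1 0).le]

end Pool.Agent.BED.H61
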