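import Pool.Agent.Helper54_BED.Stmt
import Pool.Agent.Helper17_Anderson.Ell2

/-!
# Module ORTH of squad BED
-/

set_option autoImplicit false

open MeasureTheory ProbabilityTheory

open scoped ENNReal NNReal BigOperators InnerProductSpace

noncomputable section

namespace Pool.Agent.BED.H61

open Matrix Pool.Agent.Anderson Pool.Agent.Loc Pool.Agent.BED

variable {d : ℕ}

theorem eigen_orth {S : Set (Site d)} {W : Site d → ℝ} {E E' : ℝ} (hne : E ≠ E') {f g : L2 d}
    (hf : IsEigenOn S W E f) (hg : IsEigenOn S W E' g) : ⟪f, g⟫_ℂ = 0 := by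
  have h := inner_Lap f g
  have s1 := lp.summable_inner (𝕜 := ℂ) (Lap d f) g
  have s2 := lp.summable_inner (𝕜 := ℂ) f (Lap d g)
  rw [lp.inner_eq_tsum, lp.inner_eq_tsum, ← sub_eq_zero, ← s1.tsum_sub s2] at h
  have h2 : ∀ x, ⟪Lap d f x, g x⟫_ℂ - ⟪f x, Lap d g x⟫_ℂ = ((E - E' : ℝ) : ℂ) * ⟪f x, g x⟫_ℂ := by
    intro x
    by_cases hx : x ∈ S
    · have e1 : Lap d f x = ((E - W x : ℝ) : ℂ) * f x := by
        rw [Lap_apply]
        have := hf.2 x hx
        push_cast
        linear_combination this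
      have e2 : Lap d g x = ((E' - W x : ℝ) : ℂ) * g x := by
        rw [Lap_apply]
        have := hg.2 x hx
        push_cast
        linear_combination this
      rw [e1, e2]
      simp only [RCLike.inner_apply, map_mul, Complex.conj_ofReal]
      push_cast
      ring
    · rw [hf.1 x hx, hg.1 x hx]
      simp
  simp only [h2] at h
  rw [tsum_mul_left, ← lp.inner_eq_tsum] at h
  rcases mul_eq_zero.1 h with h3 | h3
  · exfalso
    have : E - E' = 0 := by exact_mod_cast h3
    exact hne (by linarith)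
  · exact h3

theorem norm_sq_sum {J : Finset ℝ} {v : ℝ → L2 d}
    (h : ∀ E ∈ J, ∀ E' ∈ J, E ≠ E' → ⟪v E, v E'⟫_ℂ = 0) :
    ‖(∑ E ∈ J, v E : L2 d)‖ ^ 2 = ∑ E ∈ J, ‖v E‖ ^ 2 := by
  induction J using Finset.induction_on with
  | empty => simp
  | insert a s ha ih =>
    rw [Finset.sum_insert ha, Finset.sum_insert ha, ← ih fun E hE E' hE' hne =>
      h E (Finset.mem_insert_of_mem hE) E' (Finset.mem_insert_of_mem hE') hne]
    have h0 : ⟪v a, ∑ E ∈ s, v E⟫_ℂ = 0 := by
      rw [inner_sum]
      refine Finset.sum_eq_zero fun E hE => ?_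
      refine h a (Finset.mem_insert_self a s) E (Finset.mem_insert_of_mem hE) ?_
      rintro rfl
      exact ha hE
    have := norm_add_sq_eq_norm_sq_add_norm_sq_of_inner_eq_zero (v a) (∑ E ∈ s, v E) h0
    rw [sq, sq, sq]
    exact this

/-- ORTH -/
theorem orth : OrthStmt := by
  intro d S W J u hu c
  rw [norm_sq_sum]
  · refine Finset.sum_congr rfl fun E _ => ?_
    rw [norm_smul, mul_pow, Complex.norm_real, Real.norm_eq_abs, sq_abs]
  · intro E hE E' hE' hne
    rw [inner_smul_left, inner_smul_right, eigen_orth hne (hu E hE) (hu E' hE')]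
    simp

end Pool.Agent.BED.H61
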