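import Pool.Agent.Helper54_BED.Stmt
import Pool.Agent.Helper17_Anderson.Ell2

/-!
# Module TRANS of squad BED
-/

set_option autoImplicit false

open MeasureTheory ProbabilityTheory

open scoped ENNReal NNReal BigOperators InnerProductSpace

noncomputable section

namespace Pool.Agent.BED.H61

open Matrix Pool.Agent.Anderson Pool.Agent.Loc Pool.Agent.BED

variable {d M : ℕ}

/-- reduction modulo `M` -/
def red (M : ℕ) (y : Site d) : Tor d M := fun i => (y i : ZMod M)

theorem rep_red [NeZero M] {y : Site d} {R : ℕ} (hR : 2 * R < M) (hy : ∀ i, |y i| ≤ R) :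
    rep (red M y) = y := by
  funext i
  unfold rep red
  rw [ZMod.valMinAbs_spec]
  refine ⟨rfl, ?_⟩
  have h := abs_le.1 (hy i)
  have hR' : (2 * R : ℤ) < M := by exact_mod_cast hR
  rw [Set.mem_Ioc]
  constructor <;> linarith [h.1, h.2]

theorem red_add (y : Site d) (i : Fin d) : red M (y + Pi.single i 1) = red M y + ev i := by
  funext j
  by_cases h : j = i
  · subst h; simp [red, ev]
  · simp [red, ev, h]

theorem red_sub (y : Site d) (i : Fin d) : red M (y - Pi.single i 1) = red M y - ev i := by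
  funext j
  by_cases h : j = i
  · subst h; simp [red, ev]
  · simp [red, ev, h]

theorem rep_inj [NeZero M] : Function.Injective (rep : Tor d M → Site d) := by
  intro x y h
  funext i
  exact ZMod.injective_valMinAbs (congrFun h i)

theorem TM_mulVec [NeZero M] (z : ℝ) (V f : Tor d M → ℝ) (x : Tor d M) :
    (TM z V *ᵥ f) x = (1 - 1 / (8 * (d : ℝ)) * (z - V x)) * f x
      + 1 / (8 * (d : ℝ)) * ∑ i : Fin d, (f (x + ev i) + f (x - ev i)) := by
  unfold TM
  rw [Matrix.sub_mulVec, Matrix.one_mulVec, Matrix.smul_mulVec, Pi.sub_apply, Pi.smul_apply,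
    AM_mulVec, smul_eq_mul]
  ring

section

variable {S : Set (Site d)} {W : Site d → ℝ} {J : Finset ℝ} {u : ℝ → L2 d}

/-- combinations of the eigenfunctions -/
def comb (J : Finset ℝ) (u : ℝ → L2 d) (a : ℝ → ℝ) : L2 d := ∑ E ∈ J, (a E : ℂ) • u E

theorem comb_apply (a : ℝ → ℝ) (x : Site d) :
    comb J u a x = ∑ E ∈ J, (a E : ℂ) * u E x := by
  unfold comb
  rw [coe_sum_apply]
  rfl

theorem comb_step (hu : ∀ E ∈ J, IsEigenOn S W E (u E)) (t z : ℝ) (a : ℝ → ℝ)
    {x : Site d} (hx : x ∈ S) :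
    comb J u (fun E => a E * (1 - t * (z - E))) x
      = ((1 - t * (z - W x) : ℝ) : ℂ) * comb J u a x
        + (t : ℂ) * ∑ i : Fin d, (comb J u a (x + Pi.single i 1) + comb J u a (x - Pi.single i 1)) := by
  have h1 : ∑ i : Fin d, (comb J u a (x + Pi.single i 1) + comb J u a (x - Pi.single i 1))
      = ∑ E ∈ J, (a E : ℂ) * lap (u E) x := by
    simp only [comb_apply, ← Finset.sum_add_distrib]
    rw [Finset.sum_comm]
    refine Finset.sum_congr rfl fun E _ => ?_
    unfold lap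
    rw [Finset.mul_sum]
    refine Finset.sum_congr rfl fun i _ => ?_
    ring
  rw [h1, comb_apply, comb_apply, Finset.mul_sum, Finset.mul_sum, ← Finset.sum_add_distrib]
  refine Finset.sum_congr rfl fun E hE => ?_
  have := (hu E hE).2 x hx
  push_cast
  linear_combination (-(t : ℂ) * (a E : ℂ)) * this

theorem comb_out (hu : ∀ E ∈ J, IsEigenOn S W E (u E)) (a : ℝ → ℝ)
    {x : Site d} (hx : x ∉ S) : comb J u a x = 0 := by
  rw [comb_apply]
  refine Finset.sum_eq_zero fun E hE => ?_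
  rw [(hu E hE).1 x hx, mul_zero]

/-- finite propagation speed -/
theorem prop_speed [NeZero M] (hd : 1 ≤ d) (hu : ∀ E ∈ J, IsEigenOn S W E (u E)) {R : ℕ}
    (hR : 2 * R < M) {z : ℝ} (hz : z ≤ 2 * d + 1) (hV : ∀ x : Tor d M, -1 ≤ W (rep x))
    (c : ℝ → ℝ) : ∀ k : ℕ, k ≤ R → ∀ y : Site d, (∀ i, |y i| ≤ (R : ℤ) - k) →
      ‖comb J u (fun E => c E * (1 - 1 / (8 * (d : ℝ)) * (z - E)) ^ k) y‖
        ≤ ((TM z fun x : Tor d M => W (rep x)) ^ k *ᵥ fun x => ‖comb J u c (rep x)‖) (red M y) := by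
  have hd' : (1 : ℝ) ≤ d := by exact_mod_cast hd
  have ht : 0 < 1 / (8 * (d : ℝ)) := by positivity
  intro k
  induction k with
  | zero =>
    intro _ y hy
    simp only [pow_zero, mul_one, Matrix.one_mulVec]
    rw [rep_red hR (fun i => by simpa using hy i)]
  | succ k ih =>
    intro hk y hy
    have hk' : k ≤ R := by omega
    have hyR : ∀ i, |y i| ≤ R := fun i => by
      have := hy i
      push_cast at this
      linarith
    have hrep : rep (red M y) = y := rep_red hR hyR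
    rw [pow_succ', ← Matrix.mulVec_mulVec, TM_mulVec, hrep]
    set F : Tor d M → ℝ := (TM z fun x : Tor d M => W (rep x)) ^ k *ᵥ fun x => ‖comb J u c (rep x)‖
      with hF
    set a : ℝ → ℝ := fun E => c E * (1 - 1 / (8 * (d : ℝ)) * (z - E)) ^ k with ha
    have hW : -1 ≤ W y := by
      have := hV (red M y)
      rwa [hrep] at this
    have hcoef : 0 ≤ 1 - 1 / (8 * (d : ℝ)) * (z - W y) := by
      have h1 : 1 / (8 * (d : ℝ)) * (z - W y) ≤ 1 / (8 * (d : ℝ)) * (8 * d) :=
        mul_le_mul_of_nonneg_left (by linarith) ht.le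
      have h2 : 1 / (8 * (d : ℝ)) * (8 * d) = 1 := by field_simp
      linarith
    have b0 : ‖comb J u a y‖ ≤ F (red M y) := ih hk' y fun i => by
      have := hy i
      push_cast at this
      linarith
    have b1 : ∀ i, ‖comb J u a (y + Pi.single i 1)‖ ≤ F (red M y + ev i) := by
      intro i
      rw [← red_add]
      refine ih hk' _ fun j => ?_
      have h1 := abs_le.1 (hy j)
      push_cast at h1
      rw [abs_le, Pi.add_apply]
      by_cases h : j = i
      · subst h; simp only [Pi.single_eq_same]; constructor <;> linarith [h1.1, h1.2]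
      · simp only [Pi.single_eq_of_ne h]; constructor <;> linarith [h1.1, h1.2]
    have b2 : ∀ i, ‖comb J u a (y - Pi.single i 1)‖ ≤ F (red M y - ev i) := by
      intro i
      rw [← red_sub]
      refine ih hk' _ fun j => ?_
      have h1 := abs_le.1 (hy j)
      push_cast at h1
      rw [abs_le, Pi.sub_apply]
      by_cases h : j = i
      · subst h; simp only [Pi.single_eq_same]; constructor <;> linarith [h1.1, h1.2]
      · simp only [Pi.single_eq_of_ne h]; constructor <;> linarith [h1.1, h1.2]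
    have e : (fun E => c E * (1 - 1 / (8 * (d : ℝ)) * (z - E)) ^ (k + 1))
        = fun E => a E * (1 - 1 / (8 * (d : ℝ)) * (z - E)) := by
      funext E
      rw [ha]; ring
    have hRHS : ‖comb J u a y‖ * (1 - 1 / (8 * (d : ℝ)) * (z - W y))
        + 1 / (8 * (d : ℝ)) * ∑ i : Fin d, (‖comb J u a (y + Pi.single i 1)‖
          + ‖comb J u a (y - Pi.single i 1)‖)
        ≤ (1 - 1 / (8 * (d : ℝ)) * (z - W y)) * F (red M y)
          + 1 / (8 * (d : ℝ)) * ∑ i : Fin d, (F (red M y + ev i) + F (red M y - ev i)) := by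
      refine add_le_add ?_ ?_
      · rw [mul_comm]
        exact mul_le_mul_of_nonneg_left b0 hcoef
      · refine mul_le_mul_of_nonneg_left ?_ ht.le
        exact Finset.sum_le_sum fun i _ => add_le_add (b1 i) (b2 i)
    refine le_trans ?_ hRHS
    rw [e]
    by_cases hy' : y ∈ S
    · rw [comb_step hu (1 / (8 * (d : ℝ))) z a hy']
      refine (norm_add_le _ _).trans (add_le_add ?_ ?_)
      · rw [norm_mul, Complex.norm_real, Real.norm_of_nonneg hcoef, mul_comm]
      · rw [norm_mul, Complex.norm_real, Real.norm_of_nonneg ht.le]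
        refine mul_le_mul_of_nonneg_left ?_ ht.le
        refine (norm_sum_le _ _).trans ?_
        exact Finset.sum_le_sum fun i _ => norm_add_le _ _
    · rw [comb_out hu _ hy', norm_zero]
      positivity

end

theorem sum_rep_le [NeZero M] (w : L2 d) : ∑ x : Tor d M, ‖w (rep x)‖ ^ 2 ≤ ‖w‖ ^ 2 := by
  rw [L2.norm_sq]
  have h := (L2.summable_sq w).sum_le_tsum (Finset.univ.map ⟨rep, rep_inj (d := d) (M := M)⟩)
    (fun x _ => by positivity)
  rw [Finset.sum_map] at h
  exact h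

/-- TRANS -/
theorem trans (hH : HeatStmt) (hO : OrthStmt) : TransStmt := by
  intro d M _ hd r hr hM z μ W hμ hz hflat lam hlam1 hlam2 S J u hJ hu x hx
  have hd' : (1 : ℝ) ≤ d := by exact_mod_cast hd
  have hr' : (1 : ℝ) ≤ r := by exact_mod_cast hr
  have hlam0 : 0 < lam := lt_of_lt_of_le (by positivity) hlam1
  obtain ⟨hV, hP, hD⟩ := hflat
  set V : Tor d M → ℝ := fun x => W (rep x) with hVdef
  have heat := hH d M hd z V (49 / 50 * μ) hz hV hP (by positivity)
    (fun x => by have := (abs_le.1 (hD x)).1; linarith)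
    (fun x => by have := (abs_le.1 (hD x)).2; linarith)
  obtain ⟨-, -, hphi, -⟩ := heat
  set n : ℕ := ⌊1 / lam⌋₊ with hn
  have hn1 : (n : ℝ) ≤ 1 / lam := Nat.floor_le (by positivity)
  have hn2 : 1 / lam < n + 1 := Nat.lt_floor_add_one _
  have hnr : n ≤ r := by
    have h1 : 1 / lam ≤ r := by
      rw [div_le_iff₀ hlam0]
      rw [div_le_iff₀ (by linarith)] at hlam1
      linarith
    have : (n : ℝ) ≤ r := hn1.trans h1
    exact_mod_cast this
  have hM2 : n + 1 ≤ M ^ 2 := by nlinarith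
  have hR : 2 * (2 * r + 1) < M := by omega
  set t : ℝ := 1 / (8 * (d : ℝ)) with ht
  have ht0 : 0 < t := by positivity
  have ht8 : t ≤ 1 / 8 := by
    rw [ht]
    apply one_div_le_one_div_of_le (by norm_num)
    linarith
  -- the coefficients
  set q : ℝ → ℝ := fun E => 1 - t * (z - E) with hq
  have hq0 : ∀ E ∈ J, 1 - t * lam ≤ q E := by
    intro E hE
    have h1 := hJ E hE
    have h2 := mul_le_mul_of_nonneg_left (show z - E ≤ lam by linarith) ht0.le
    simp only [hq]; linarith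
  have hs0 : 0 < 1 - t * lam := by nlinarith
  have hqpos : ∀ E ∈ J, 0 < q E := fun E hE => hs0.trans_le (hq0 E hE)
  set c : ℝ → ℝ := fun E => (q E ^ n)⁻¹ with hc
  have hbound := prop_speed hd hu hR hz hV c n (by omega) x (fun i => by
    have := hx i
    push_cast
    have h3 : (n : ℤ) ≤ r := by exact_mod_cast hnr
    linarith)
  -- the combination is the sum
  have hv : comb J u (fun E => c E * (1 - 1 / (8 * (d : ℝ)) * (z - E)) ^ n) x
      = (∑ E ∈ J, u E : L2 d) x := by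
    rw [comb_apply, coe_sum_apply]
    refine Finset.sum_congr rfl fun E hE => ?_
    have h1 : c E * (1 - 1 / (8 * (d : ℝ)) * (z - E)) ^ n = 1 := by
      have := (hqpos E hE).ne'
      simp only [hc, ← ht, hq] at this ⊢
      exact inv_mul_cancel₀ (pow_ne_zero _ this)
    rw [h1]; simp
  rw [hv] at hbound
  -- the norm of the combination
  have hw : ‖comb J u c‖ ^ 2 ≤ 3 * ‖(∑ E ∈ J, u E : L2 d)‖ ^ 2 := by
    have e1 := hO d S W J u hu c
    have e2 := hO d S W J u hu (fun _ => 1)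
    have e3 : (∑ E ∈ J, (((1 : ℝ) : ℂ)) • u E : L2 d) = ∑ E ∈ J, u E := by
      refine Finset.sum_congr rfl fun E _ => ?_
      simp
    rw [e3] at e2
    unfold comb
    rw [e1, e2, Finset.mul_sum]
    refine Finset.sum_le_sum fun E hE => ?_
    have h1 : c E ^ 2 ≤ 3 := by
      have hb : 1 + (2 * n : ℕ) * (-(t * lam)) ≤ (1 + -(t * lam)) ^ (2 * n) :=
        one_add_mul_le_pow (by nlinarith) _
      have h2 : (3 / 4 : ℝ) ≤ (1 - t * lam) ^ (2 * n) := by
        have h3 : (n : ℝ) * lam ≤ 1 := by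
          have := mul_le_mul_of_nonneg_right hn1 hlam0.le
          rwa [one_div, inv_mul_cancel₀ hlam0.ne'] at this
        have h4 : t * (n * lam) ≤ 1 / 8 * 1 := mul_le_mul ht8 h3 (by positivity) (by norm_num)
        push_cast at hb
        rw [sub_eq_add_neg]
        linarith
      have h5 : (1 - t * lam) ^ (2 * n) ≤ (q E) ^ (2 * n) := pow_le_pow_left₀ hs0.le (hq0 E hE) _
      have h6 : c E ^ 2 = ((q E) ^ (2 * n))⁻¹ := by
        simp only [hc]
        rw [inv_pow, ← pow_mul, mul_comm n 2]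
      rw [h6]
      have h7 : (3 / 4 : ℝ) ≤ (q E) ^ (2 * n) := h2.trans h5
      calc ((q E) ^ (2 * n))⁻¹ ≤ (3 / 4 : ℝ)⁻¹ := inv_anti₀ (by norm_num) h7
        _ ≤ 3 := by norm_num
    have h8 : (0 : ℝ) ≤ ‖u E‖ ^ 2 := by positivity
    calc c E ^ 2 * ‖u E‖ ^ 2 ≤ 3 * ‖u E‖ ^ 2 := mul_le_mul_of_nonneg_right h1 h8
      _ = 3 * ((1 : ℝ) ^ 2 * ‖u E‖ ^ 2) := by ring
  -- Cauchy-Schwarz
  have hcs : ((TM z V) ^ n *ᵥ fun x => ‖comb J u c (rep x)‖) (red M x)
      ≤ Real.sqrt (∑ y, (((TM z V) ^ n) (red M x) y) ^ 2) *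
        Real.sqrt (∑ y : Tor d M, ‖comb J u c (rep y)‖ ^ 2) :=
    Real.sum_mul_le_sqrt_mul_sqrt _ _ _
  have hfin : ‖(∑ E ∈ J, u E : L2 d) x‖ ^ 2 ≤
      (∑ y, (((TM z V) ^ n) (red M x) y) ^ 2) * (∑ y : Tor d M, ‖comb J u c (rep y)‖ ^ 2) := by
    have h1 := hbound.trans hcs
    have h2 := pow_le_pow_left₀ (norm_nonneg _) h1 2
    rw [mul_pow, Real.sq_sqrt (Finset.sum_nonneg fun y _ => sq_nonneg _),
      Real.sq_sqrt (Finset.sum_nonneg fun y _ => by positivity)] at h2
    exact h2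
  have hK0 : 0 ≤ KH d := by unfold KH; positivity
  have hpow : ((n : ℝ) + 1) ^ (-(d : ℝ) / 2) ≤ lam ^ ((d : ℝ) / 2) := by
    have h1 : (1 / lam) ^ ((d : ℝ) / 2) ≤ ((n : ℝ) + 1) ^ ((d : ℝ) / 2) :=
      Real.rpow_le_rpow (by positivity) hn2.le (by positivity)
    rw [neg_div, Real.rpow_neg (by positivity)]
    have h2 : (1 / lam) ^ ((d : ℝ) / 2) = (lam ^ ((d : ℝ) / 2))⁻¹ := by
      rw [one_div, Real.inv_rpow hlam0.le]
    rw [h2] at h1
    have h3 : 0 < lam ^ ((d : ℝ) / 2) := Real.rpow_pos_of_pos hlam0 _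
    calc (((n : ℝ) + 1) ^ ((d : ℝ) / 2))⁻¹ ≤ ((lam ^ ((d : ℝ) / 2))⁻¹)⁻¹ :=
          inv_anti₀ (by positivity) h1
      _ = _ := inv_inv _
  have h1 : ∑ y, (((TM z V) ^ n) (red M x) y) ^ 2 ≤ KH d * lam ^ ((d : ℝ) / 2) :=
    (hphi (red M x) n hM2).trans (mul_le_mul_of_nonneg_left hpow hK0)
  have h2 : ∑ y : Tor d M, ‖comb J u c (rep y)‖ ^ 2 ≤ 3 * ‖(∑ E ∈ J, u E : L2 d)‖ ^ 2 :=
    (sum_rep_le _).trans hw
  have h3 : 0 < lam ^ ((d : ℝ) / 2) := Real.rpow_pos_of_pos hlam0 _
  calc ‖(∑ E ∈ J, u E : L2 d) x‖ ^ 2 ≤ _ := hfin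
    _ ≤ (KH d * lam ^ ((d : ℝ) / 2)) * (3 * ‖(∑ E ∈ J, u E : L2 d)‖ ^ 2) :=
        mul_le_mul h1 h2 (Finset.sum_nonneg fun y _ => by positivity) (by positivity)
    _ = _ := by ring

end Pool.Agent.BED.H61
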